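import Pool.Agent.H65.PK.Targets

/-!
Row CAR of pk_modules: fermion operators exist.
-/

set_option autoImplicit false

open Module

namespace Pool.Agent.H27.PK

open Pool.Agent.H65.PK

/-- transport along a ring isomorphism -/
theorem car_map {ι R R' : Type} [DecidableEq ι] [AddCommGroup R] [Module ℚ R]
    [AddCommGroup R'] [Module ℚ R'] (φ : Module.End ℚ R →+* Module.End ℚ R')
    {F G : ι → Module.End ℚ R} (h : CAR F G) : CAR (fun s => φ (F s)) (fun s => φ (G s)) where
  ff s s' := by rw [← map_mul, ← map_mul, ← map_add, h.ff, map_zero]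
  gg s s' := by rw [← map_mul, ← map_mul, ← map_add, h.gg, map_zero]
  fg s s' := by
    rw [← map_mul, ← map_mul, ← map_add, h.fg]
    split_ifs
    · exact map_one φ
    · exact map_zero φ

/-- the step: one more pair of operators -/
theorem car_step {α R : Type} [DecidableEq α] [DecidableEq (Option α)] [AddCommGroup R] [Module ℚ R]
    {F G : α → Module.End ℚ R} (h : CAR F G) :
    ∃ F' G' : Option α → Module.End ℚ (R × R), CAR F' G' := by
  refine ⟨fun o => o.elim (LinearMap.prod (LinearMap.snd ℚ R R) 0)
      (fun s => LinearMap.prodMap (F s) (-(F s))),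
    fun o => o.elim (LinearMap.prod 0 (LinearMap.fst ℚ R R))
      (fun s => LinearMap.prodMap (G s) (-(G s))), ?_, ?_, ?_⟩
  · rintro (_ | s) (_ | s')
    · refine LinearMap.ext ?_
      rintro ⟨x, y⟩
      simp
    · refine LinearMap.ext ?_
      rintro ⟨x, y⟩
      simp
    · refine LinearMap.ext ?_
      rintro ⟨x, y⟩
      simp
    · refine LinearMap.ext ?_
      rintro ⟨x, y⟩
      have h1 := LinearMap.congr_fun (h.ff s s') x
      have h2 := LinearMap.congr_fun (h.ff s s') y
      simp only [LinearMap.add_apply, Module.End.mul_apply, LinearMap.zero_apply] at h1 h2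
      simp [h1, h2]
  · rintro (_ | s) (_ | s')
    · refine LinearMap.ext ?_
      rintro ⟨x, y⟩
      simp
    · refine LinearMap.ext ?_
      rintro ⟨x, y⟩
      simp
    · refine LinearMap.ext ?_
      rintro ⟨x, y⟩
      simp
    · refine LinearMap.ext ?_
      rintro ⟨x, y⟩
      have h1 := LinearMap.congr_fun (h.gg s s') x
      have h2 := LinearMap.congr_fun (h.gg s s') y
      simp only [LinearMap.add_apply, Module.End.mul_apply, LinearMap.zero_apply] at h1 h2
      simp [h1, h2]
  · rintro (_ | s) (_ | s')
    · refine LinearMap.ext ?_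
      rintro ⟨x, y⟩
      simp
    · refine LinearMap.ext ?_
      rintro ⟨x, y⟩
      simp
    · refine LinearMap.ext ?_
      rintro ⟨x, y⟩
      simp
    · refine LinearMap.ext ?_
      rintro ⟨x, y⟩
      have h1 := LinearMap.congr_fun (h.fg s s') x
      have h2 := LinearMap.congr_fun (h.fg s s') y
      simp only [LinearMap.add_apply, Module.End.mul_apply] at h1 h2
      by_cases hs : s = s'
      · subst hs
        simp only [if_true, Module.End.one_apply] at h1 h2
        simp [h1, h2]
      · rw [if_neg hs] at h1 h2
        have hs' : ¬ (some s = some s') := fun h => hs (Option.some.inj h)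
        simp only [LinearMap.zero_apply] at h1 h2
        simp [h1, h2, hs]

/-- the property proved by induction -/
def Ex (α : Type) [Fintype α] : Prop :=
  ∀ _ : DecidableEq α, ∃ (R : Type) (_ : AddCommGroup R) (_ : Module ℚ R)
    (_ : FiniteDimensional ℚ R) (_ : Nontrivial R) (F G : α → Module.End ℚ R), CAR F G

theorem ex_all (α : Type) [Fintype α] : Ex α := by
  refine Fintype.induction_empty_option (P := fun α _ => Ex α) ?_ ?_ ?_ α
  · intro α β _ e h
    intro dβ
    let dα : DecidableEq α := Classical.decEq α
    obtain ⟨R, i1, i2, i3, i4, F, G, hc⟩ := h dα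
    refine ⟨R, i1, i2, i3, i4, fun b => F (e.symm b), fun b => G (e.symm b), ?_, ?_, ?_⟩
    · intro s s'
      exact hc.ff (e.symm s) (e.symm s')
    · intro s s'
      exact hc.gg _ _
    · intro s s'
      have h1 := hc.fg (e.symm s) (e.symm s')
      by_cases hs : s = s'
      · subst hs
        simpa using h1
      · have hs2 : ¬ (e.symm s = e.symm s') := fun h => hs (e.symm.injective h)
        rw [if_neg hs2] at h1
        rw [if_neg hs]
        exact h1
  · intro _
    refine ⟨ℚ, inferInstance, inferInstance, inferInstance, inferInstance, fun _ => 0,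
      fun _ => 0, ?_, ?_, ?_⟩
    · intro s
      exact s.elim
    · intro s
      exact s.elim
    · intro s
      exact s.elim
  · intro α _ h
    intro dO
    let dα : DecidableEq α := Classical.decEq α
    obtain ⟨R, i1, i2, i3, i4, F, G, hc⟩ := h dα
    obtain ⟨F', G', h'⟩ := car_step hc
    exact ⟨R × R, inferInstance, inferInstance, inferInstance, inferInstance, F', G', h'⟩

theorem pf_CAR : T_CAR := by
  intro ι _ dι
  obtain ⟨R, i1, i2, i3, i4, F, G, hc⟩ := ex_all ι dι
  refine ⟨finrank ℚ R, finrank_pos, ?_⟩
  have e : R ≃ₗ[ℚ] (Fin (finrank ℚ R) → ℚ) := (finBasis ℚ R).equivFun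
  exact ⟨_, _, car_map e.conjRingEquiv.toRingHom hc⟩

end Pool.Agent.H27.PK
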