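import Pool.Agent.H65.PK.Targets

/-!
Row GEN of pk_modules: products of two generators.
-/

set_option autoImplicit false

open Module

namespace Pool.Agent.H27.PK

open Pool.Agent.H65.PK

/-- the anticommutators -/
theorem gen_anti {p q : ℕ} {R : Type} [AddCommGroup R] [Module ℚ R] (c : Fin q → ℚ)
    (F G : Fin p ⊕ Fin q → Module.End ℚ R) (h : CAR F G) (e f : Fin p ⊕ Fin p ⊕ Fin q) :
    gen c F G e * gen c F G f + gen c F G f * gen c F G e =
      bil c e f • (1 : Module.End ℚ R) := by
  rcases e with s | s | s <;> rcases f with t | t | t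
  · simp only [gen, Sum.elim_inl, bil, zero_smul]
    exact h.ff _ _
  · simp only [gen, Sum.elim_inl, Sum.elim_inr, bil]
    rw [h.fg]
    by_cases hst : s = t
    · subst hst
      simp
    · simp [hst]
  · simp only [gen, Sum.elim_inl, Sum.elim_inr, bil, zero_smul]
    have h1 := h.ff (Sum.inl s) (Sum.inr t)
    have h2 := h.fg (Sum.inl s) (Sum.inr t)
    rw [if_neg (by simp)] at h2
    calc F (Sum.inl s) * (c t • F (Sum.inr t) + G (Sum.inr t)) +
          (c t • F (Sum.inr t) + G (Sum.inr t)) * F (Sum.inl s)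
        = c t • (F (Sum.inl s) * F (Sum.inr t) + F (Sum.inr t) * F (Sum.inl s)) +
          (F (Sum.inl s) * G (Sum.inr t) + G (Sum.inr t) * F (Sum.inl s)) := by
          simp only [mul_add, add_mul, mul_smul_comm, smul_mul_assoc, smul_add]
          abel
      _ = 0 := by rw [h1, h2]; simp
  · simp only [gen, Sum.elim_inl, Sum.elim_inr, bil]
    rw [add_comm, h.fg]
    by_cases hst : s = t
    · subst hst
      simp
    · have hts : ¬ (t = s) := fun h => hst h.symm
      simp [hst, hts]
  · simp only [gen, Sum.elim_inl, Sum.elim_inr, bil, zero_smul]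
    exact h.gg _ _
  · simp only [gen, Sum.elim_inl, Sum.elim_inr, bil, zero_smul]
    have h1 := h.gg (Sum.inl s) (Sum.inr t)
    have h2 := h.fg (Sum.inr t) (Sum.inl s)
    rw [if_neg (by simp)] at h2
    calc G (Sum.inl s) * (c t • F (Sum.inr t) + G (Sum.inr t)) +
          (c t • F (Sum.inr t) + G (Sum.inr t)) * G (Sum.inl s)
        = c t • (F (Sum.inr t) * G (Sum.inl s) + G (Sum.inl s) * F (Sum.inr t)) +
          (G (Sum.inl s) * G (Sum.inr t) + G (Sum.inr t) * G (Sum.inl s)) := by
          simp only [mul_add, add_mul, mul_smul_comm, smul_mul_assoc, smul_add]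
          abel
      _ = 0 := by rw [h1, h2]; simp
  · simp only [gen, Sum.elim_inl, Sum.elim_inr, bil, zero_smul]
    have h1 := h.ff (Sum.inl t) (Sum.inr s)
    have h2 := h.fg (Sum.inl t) (Sum.inr s)
    rw [if_neg (by simp)] at h2
    calc (c s • F (Sum.inr s) + G (Sum.inr s)) * F (Sum.inl t) +
          F (Sum.inl t) * (c s • F (Sum.inr s) + G (Sum.inr s))
        = c s • (F (Sum.inl t) * F (Sum.inr s) + F (Sum.inr s) * F (Sum.inl t)) +
          (F (Sum.inl t) * G (Sum.inr s) + G (Sum.inr s) * F (Sum.inl t)) := by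
          simp only [mul_add, add_mul, mul_smul_comm, smul_mul_assoc, smul_add]
          abel
      _ = 0 := by rw [h1, h2]; simp
  · simp only [gen, Sum.elim_inl, Sum.elim_inr, bil, zero_smul]
    have h1 := h.gg (Sum.inl t) (Sum.inr s)
    have h2 := h.fg (Sum.inr s) (Sum.inl t)
    rw [if_neg (by simp)] at h2
    calc (c s • F (Sum.inr s) + G (Sum.inr s)) * G (Sum.inl t) +
          G (Sum.inl t) * (c s • F (Sum.inr s) + G (Sum.inr s))
        = c s • (F (Sum.inr s) * G (Sum.inl t) + G (Sum.inl t) * F (Sum.inr s)) +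
          (G (Sum.inl t) * G (Sum.inr s) + G (Sum.inr s) * G (Sum.inl t)) := by
          simp only [mul_add, add_mul, mul_smul_comm, smul_mul_assoc, smul_add]
          abel
      _ = 0 := by rw [h1, h2]; simp
  · simp only [gen, Sum.elim_inr, bil]
    have h1 := h.ff (Sum.inr s) (Sum.inr t)
    have h2 := h.gg (Sum.inr s) (Sum.inr t)
    have h3 := h.fg (Sum.inr s) (Sum.inr t)
    have h4 := h.fg (Sum.inr t) (Sum.inr s)
    calc (c s • F (Sum.inr s) + G (Sum.inr s)) * (c t • F (Sum.inr t) + G (Sum.inr t)) +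
          (c t • F (Sum.inr t) + G (Sum.inr t)) * (c s • F (Sum.inr s) + G (Sum.inr s))
        = (c s * c t) • (F (Sum.inr s) * F (Sum.inr t) + F (Sum.inr t) * F (Sum.inr s)) +
          c s • (F (Sum.inr s) * G (Sum.inr t) + G (Sum.inr t) * F (Sum.inr s)) +
          c t • (F (Sum.inr t) * G (Sum.inr s) + G (Sum.inr s) * F (Sum.inr t)) +
          (G (Sum.inr s) * G (Sum.inr t) + G (Sum.inr t) * G (Sum.inr s)) := by
          simp only [mul_add, add_mul, mul_smul_comm, smul_mul_assoc, smul_add, smul_smul,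
            mul_comm (c t) (c s)]
          abel
      _ = _ := by
          rw [h1, h2, h3, h4]
          by_cases hst : s = t
          · subst hst
            simp only [if_true, smul_zero, zero_add, add_zero]
            rw [← add_smul, two_mul]
          · have hts : ¬ (t = s) := fun h => hst h.symm
            simp [hst, hts]

/-- the quadratic form -/
theorem gen_form {K : Type} [Field K] [CharZero K] {p q : ℕ} (c : Fin q → ℚ)
    (a b : Fin p → K) (e : Fin q → K) :
    ∑ k, ∑ k', Sum.elim a (Sum.elim b e) k * Sum.elim a (Sum.elim b e) k' *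
      ((bil c k k' : ℚ) : K) = 2 * (∑ s, a s * b s + ∑ s, (c s : K) * e s ^ 2) := by
  simp only [Fintype.sum_sum_type, Sum.elim_inl, Sum.elim_inr, bil, Rat.cast_zero, mul_zero,
    Finset.sum_const_zero, zero_add, add_zero]
  simp only [apply_ite (fun x : ℚ => (x : K)), Rat.cast_one, Rat.cast_zero, mul_ite, mul_one,
    mul_zero, Finset.sum_ite_eq, Finset.mem_univ, if_true, Rat.cast_mul, Rat.cast_ofNat]
  rw [mul_add, ← add_assoc, two_mul, Finset.mul_sum]
  congr 1
  · congr 1
    exact Finset.sum_congr rfl fun s _ => mul_comm _ _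
  · exact Finset.sum_congr rfl fun s _ => by ring

/-- the square of a combination -/
theorem gen_sq {p q : ℕ} {R : Type} [AddCommGroup R] [Module ℚ R] (c : Fin q → ℚ)
    (F G : Fin p ⊕ Fin q → Module.End ℚ R) (h : CAR F G) (a b : Fin p → ℚ) (e : Fin q → ℚ) :
    (∑ k, Sum.elim a (Sum.elim b e) k • gen c F G k) *
      (∑ k, Sum.elim a (Sum.elim b e) k • gen c F G k) =
      (∑ s, a s * b s + ∑ s, c s * e s ^ 2) • (1 : Module.End ℚ R) := by
  set z := Sum.elim a (Sum.elim b e) with hz
  set T := ∑ k, z k • gen c F G k with hT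
  have h1 : T * T = ∑ k, ∑ k', (z k * z k') • (gen c F G k * gen c F G k') := by
    rw [hT, Finset.sum_mul_sum]
    refine Finset.sum_congr rfl fun k _ => Finset.sum_congr rfl fun k' _ => ?_
    rw [smul_mul_smul_comm]
  have h2 : T * T = ∑ k, ∑ k', (z k * z k') • (gen c F G k' * gen c F G k) := by
    rw [h1, Finset.sum_comm]
    refine Finset.sum_congr rfl fun k _ => Finset.sum_congr rfl fun k' _ => ?_
    rw [mul_comm (z k') (z k)]
  have h3 : (2 : ℚ) • (T * T) = (2 * (∑ s, a s * b s + ∑ s, c s * e s ^ 2)) •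
      (1 : Module.End ℚ R) := by
    have h4 := gen_form (K := ℚ) c a b e
    simp only [Rat.cast_id] at h4
    rw [← h4, two_smul]
    nth_rewrite 1 [h1]
    rw [h2, ← Finset.sum_add_distrib, Finset.sum_smul]
    refine Finset.sum_congr rfl fun k _ => ?_
    rw [← Finset.sum_add_distrib, Finset.sum_smul]
    refine Finset.sum_congr rfl fun k' _ => ?_
    rw [← smul_add, gen_anti c F G h, smul_smul]
  have h5 : (2 : ℚ) ≠ 0 := by norm_num
  rw [mul_smul] at h3
  exact smul_right_injective _ h5 h3

theorem pf_GEN : T_GEN := by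
  intro p q R _ _ c F G h
  refine ⟨gen_anti c F G h, fun a b e => gen_form c a b e, fun hc hpq => ?_⟩
  rcases Nat.eq_zero_or_pos p with hp | hp
  · have hq : 0 < q := by omega
    refine ⟨Sum.elim 0 (Sum.elim 0 (Pi.single ⟨0, hq⟩ 1)), _, ?_, gen_sq c F G h 0 0 _⟩
    simp only [Pi.zero_apply, zero_mul, Finset.sum_const_zero, zero_add]
    rw [Finset.sum_eq_single ⟨0, hq⟩]
    · simpa using hc _
    · intro s _ hs
      rw [Pi.single_eq_of_ne hs]
      simp
    · intro hs
      exact absurd (Finset.mem_univ _) hs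
  · refine ⟨Sum.elim (Pi.single ⟨0, hp⟩ 1) (Sum.elim (Pi.single ⟨0, hp⟩ 1) 0), _, ?_,
      gen_sq c F G h _ _ 0⟩
    simp only [Pi.zero_apply, ne_eq, OfNat.ofNat_ne_zero, not_false_eq_true, zero_pow, mul_zero,
      Finset.sum_const_zero, add_zero]
    rw [Finset.sum_eq_single ⟨0, hp⟩]
    · simp
    · intro s _ hs
      rw [Pi.single_eq_of_ne hs]
      simp
    · intro hs
      exact absurd (Finset.mem_univ _) hs

end Pool.Agent.H27.PK
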