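import Pool.Agent.H65.PK.Targets

/-!
Row GRD of pk_modules: gradings.
-/

set_option autoImplicit false

open Module

namespace Pool.Agent.H27.PK

open Pool.Agent.H65.PK

theorem pf_GRD : T_GRD := by
  intro R _ _ N x k d u v ν μ a hu hv hj hN hx j ha
  have h1 : N (x v) = ((ν : ℚ) + (k : ℚ)) • x v := by
    have h := LinearMap.congr_fun hN v
    simp only [Module.End.mul_apply, LinearMap.add_apply, LinearMap.smul_apply] at h
    rw [h, hv, map_smul, add_smul]
  have h2 : N (x v) = ∑ j, (a j * (μ j : ℚ)) • u j := by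
    rw [hx, map_sum]
    refine Finset.sum_congr rfl fun j _ => ?_
    rw [map_smul, hj j, smul_smul]
  have h3 : ∑ j, (a j * (μ j : ℚ) - ((ν : ℚ) + (k : ℚ)) * a j) • u j = 0 := by
    simp only [sub_smul, Finset.sum_sub_distrib]
    rw [← h2, h1, hx, Finset.smul_sum]
    simp only [smul_smul, sub_self]
  have h4 := Fintype.linearIndependent_iff.mp hu _ h3 j
  have h5 : a j * ((μ j : ℚ) - ((ν : ℚ) + (k : ℚ))) = 0 := by linarith
  rcases mul_eq_zero.mp h5 with h6 | h6
  · exact absurd h6 ha
  · have h7 : ((μ j : ℤ) : ℚ) = (((ν : ℤ) + k : ℤ) : ℚ) := by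
      push_cast
      linarith
    exact_mod_cast h7

end Pool.Agent.H27.PK
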